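import Pool.Agent.U856.BM.Asm
import Pool.Agent.U399.BM.TR
import Pool.Agent.U416.BM.RV
import Pool.Agent.U559.BM.SD
import Pool.Agent.U505.BM.CO
import Pool.Agent.U88.BM.UN
import Pool.Agent.U697.BM.AV2
import Pool.Agent.U776.BM.CR
import Pool.Agent.U898.BM.MX2
import Pool.Agent.U928.BM.BA
import Pool.Agent.U559.BM.PO
import Pool.Agent.U505.BM.EX
import Pool.Agent.U451.BM.RE
import Pool.Agent.U511.BM.AL
import Pool.Agent.U894.BM.GB
import Pool.Agent.U588.BM.NS
import Pool.Agent.U978.BM.KE
import Pool.Agent.U559.BM.MI
import Pool.Agent.U55.BM.KZ
import Pool.Agent.U364.BM.LI
import Pool.Agent.U402.BM.EG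
import Pool.Agent.U591.BM.IT
import Pool.Agent.U697.BM.NE
import Pool.Agent.U57.BM.LN
import Pool.Agent.U739.BM.GN
import Pool.Agent.U750.BM.DN

/-!
# A polygon with a topologically mixing billiard flow

The definitions are in `Pool/Agent/U856/BM/Defs.lean`.

* `Orb P x e t y f`: the billiard orbit in `P` which starts at the interior point `x` in the direction `e` is defined
  up to the time `t` (unit speed, finitely many elastic reflections, all at boundary points which are not vertices),
  and at the time `t` it is at the interior point `y` and has the direction `f`.
* `TopMix P`: for all open sets of states there is such an orbit from the first to the second of every length `t ≥ T`.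
* `IsConvexPolygon P`: `P` is the convex hull of a finite set and has interior points.

The table is a rectangle `a × b` with one corner cut off, so a convex pentagon. Idea of the proof.

1. The orbits parallel to the diagonal which avoid the cut off corner form a cylinder; all are closed with the length
   `l = 2 √(a² + b²)`. Both boundaries of the cylinder pass through the same vertex `V`, an end point of the cut. An
   orbit which crosses the cylinder at a small angle comes along the reversed separatrix of `V`, turns `n` times,
   `n` arbitrary and large, in the time `n l + c + o(1)`, and leaves along the separatrix. So the flow is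
   topologically mixing if the separatrix of `V`, together with its time modulo `l`, is dense.
2. By the Baire category theorem it is enough to have this approximately for a dense set of parameters. We take the
   angle `π h / q` of the cut with a large prime `q`, and generic `a`, `b`, and offset of the cut.
3. Then the flow in the directions in question is a flow in one direction on a translation surface. By genericity
   the saddle connections have a length vector which is a multiple of the one of the cylinder. All the unfolded
   normals of a side which are met make an acute angle with the direction, and `q` is prime, so the multiset of the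
   normals is symmetric; a comparison of the possible directions shows that a saddle connection or a closed orbit
   which meets the cut is impossible. By an argument of Keane the separatrix is dense outside the cylinder.
4. If the times modulo `l` were not dense there would be a continuous eigenfunction. Its lift, integrated over the
   surface, gives a polynomial relation for `a`, `b` and the offset `v` of the cut with algebraic coefficients in
   which the coefficient of `v²` (area) is not zero, a contradiction to genericity.
-/

set_option autoImplicit false

namespace Pool.Agent.Results.MP_fc28e0_an.TopologicallyMixingPentagon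

open Pool.Agent.U856.BM

/-- There is a convex polygon whose billiard flow is topologically mixing. -/
theorem result : ∃ P : Set ℂ, IsConvexPolygon P ∧ TopMix P :=
  asm Pool.Agent.U399.BM.TR.t_TR (Pool.Agent.U416.BM.RV.t_RV Pool.Agent.U399.BM.TR.t_TR) Pool.Agent.U559.BM.SD.t_SD Pool.Agent.U505.BM.CO.t_CO
    Pool.Agent.U88.BM.UN.t_UN Pool.Agent.U697.BM.AV2.t_AV2 Pool.Agent.U776.BM.CR.t_CR Pool.Agent.U898.BM.MX2.t_MX2
    Pool.Agent.U928.BM.BA.t_BA Pool.Agent.U559.BM.PO.t_PO Pool.Agent.U505.BM.EX.t_EX Pool.Agent.U451.BM.RE.t_RE
    Pool.Agent.U511.BM.AL.t_AL Pool.Agent.U894.BM.GB.t_GB Pool.Agent.U588.BM.NS.t_NS Pool.Agent.U978.BM.KE.t_KE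
    Pool.Agent.U559.BM.MI.t_MI Pool.Agent.U55.BM.KZ.t_KZ Pool.Agent.U364.BM.LI.t_LI Pool.Agent.U402.BM.EG.t_EG
    Pool.Agent.U591.BM.IT.t_IT
    Pool.Agent.U697.BM.NE.t_NE
    Pool.Agent.U57.BM.LN.t_LN Pool.Agent.U739.BM.GN.t_GN Pool.Agent.U750.BM.DN.t_DN

end Pool.Agent.Results.MP_fc28e0_an.TopologicallyMixingPentagon
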